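import Pool.Agent.K3h80.LH.Win
import Pool.Agent.K3h80.LAG.Union
import Pool.Agent.R838.TW.Cnt
import Pool.Agent.TH803.LU.ULp

set_option autoImplicit false

/-!
# The Laguerre inequalities for completed L-functions and their products
-/

namespace Pool.Agent.K3h80.LH

open Complex MeasureTheory Set Filter Topology
open scoped ComplexConjugate
open Pool.Agent.H24R2.DZ (NN ra)
open Pool.Agent.R838.TW (Sy PL cond_le)
open Pool.Agent.R838.LD (HD)
open Pool.Agent.R838.CR (hd_of)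
open Pool.Agent.W355.UN (UL)
open Pool.Agent.W169.HF (heat Slow)
open Pool.Agent.Y671.GL
open Pool.Agent.TH803.LU (EE EE_diff LC LC_eq LC_scale sh abs_pos rh_iff_lag)

theorem sh_tr (X : ℂ → ℂ) (t : ℝ) : sh (fun s => X (s - 1 / 2)) t = tr X t := by
  funext u
  unfold sh tr
  ring_nf

/-- positivity of the coefficients of high order up to an exponential height -/
theorem low_LL {m : ℕ} {B : ℝ → ℝ} {N : ℝ} {μ : Fin m → ℂ} {X L : ℂ → ℂ}
    (h : UL m B N 0 μ (fun s => X (s - 1 / 2)) L) :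
    ∃ K : ℝ, 0 < K ∧ ∃ N0 : ℕ, ∀ (n : ℕ) (t : ℝ), N0 ≤ n → |t| ≤ Real.exp (n / K) → 0 < LL X n t := by
  obtain ⟨C, hCp, hmain⟩ := abs_pos (h.hB 1)
  obtain ⟨D0, hD0, hle⟩ := cond_le h.hN μ
  have hm : (1 : ℝ) ≤ m := by exact_mod_cast h.hm
  have hm0 : (0 : ℝ) < m := by linarith
  obtain ⟨D, hDd⟩ : ∃ D : ℝ, D = m + D0 + m * Real.log 2 := ⟨_, rfl⟩
  refine ⟨2 * C * m, by positivity, ⌈2 * C * D⌉₊, ?_⟩
  intro n t hn ht
  have hn' : 2 * C * D ≤ n := (Nat.le_ceil _).trans (by exact_mod_cast hn)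
  have h2 := hle t
  have h3 : Real.log (1 + |t|) ≤ Real.log 2 + n / (2 * C * m) := by
    have h4 : 1 + |t| ≤ 2 * Real.exp (n / (2 * C * m)) := by
      have : 1 ≤ Real.exp (n / (2 * C * m)) := Real.one_le_exp (by positivity)
      linarith
    have h5 := Real.log_le_log (by positivity) h4
    rwa [Real.log_mul (by norm_num) (Real.exp_pos _).ne', Real.log_exp] at h5
  have h6 : C * ((m : ℝ) + Real.log (Pool.Agent.W355.UN.cond N μ t)) ≤ n := by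
    have h7 : (m : ℝ) + Real.log (Pool.Agent.W355.UN.cond N μ t) ≤ D + m * (n / (2 * C * m)) := by
      rw [hDd]
      have := mul_le_mul_of_nonneg_left h3 hm0.le
      linarith
    calc _ ≤ C * (D + m * (n / (2 * C * m))) := mul_le_mul_of_nonneg_left h7 hCp.le
      _ = C * D + n / 2 := by field_simp
      _ ≤ n := by linarith
  have h7 := hmain m N 0 μ _ _ h zero_le_one t n h6
  rw [sh_tr] at h7
  exact h7

theorem large_LL {X : ℂ → ℂ}
    (h : ∃ K : ℝ, 0 < K ∧ ∃ N0 : ℕ, ∀ (n : ℕ) (t : ℝ), N0 ≤ n → |t| ≤ Real.exp (n / K) → 0 < LL X n t)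
    (t : ℝ) : ∃ N : ℕ, ∀ n : ℕ, N ≤ n → 0 < LL X n t := by
  obtain ⟨K, hK, N0, h⟩ := h
  refine ⟨max N0 ⌈K * |t|⌉₊, fun n hn => h n t ((le_max_left _ _).trans hn) ?_⟩
  have h1 : K * |t| ≤ n := Nat.ceil_le.1 ((le_max_right _ _).trans hn)
  have h2 : |t| ≤ n / K := by
    rw [le_div_iff₀ hK]
    linarith
  have h3 := Real.add_one_le_exp ((n : ℝ) / K)
  linarith

section

variable {κ : ℝ} {X : ℂ → ℂ}

theorem pl_low (h : PL κ X) : ∃ K : ℝ, 0 < K ∧ ∃ N0 : ℕ, ∀ (n : ℕ) (t : ℝ), N0 ≤ n →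
    |t| ≤ Real.exp (n / K) → 0 < LL X n t := by
  obtain ⟨m, B, N, μ, L, hU⟩ := h.ul
  exact low_LL hU

theorem pl_cone (h : PL κ X) {n : ℕ} {t : ℝ} (hn : LL X n t ≤ 0) : ∃ b : ℂ, X b = 0 ∧ |t - b.im| ≤ |b.re| :=
  cone h.sy h.strip (large_LL (pl_low h) t) hn

theorem pl_crit (h : PL κ X) : (∀ s : ℂ, X s = 0 → s.re = 0) ↔ ∀ (n : ℕ) (t : ℝ), 0 ≤ LL X n t := by
  obtain ⟨m, B, N, μ, L, hU⟩ := h.ul
  have h1 := rh_iff_lag hU
  simp only [sh_tr] at h1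
  have h2 : (∀ s : ℂ, X (s - 1 / 2) = 0 → s.re = 1 / 2) ↔ (∀ s : ℂ, X s = 0 → s.re = 0) := by
    constructor
    · intro h s hs
      have h3 := h (s + 1 / 2) (by rw [add_sub_cancel_right]; exact hs)
      have e : (s + 1 / 2 : ℂ).re = s.re + 1 / 2 := by simp
      rw [e] at h3
      linarith
    · intro h s hs
      have h3 := h _ hs
      have e : (s - 1 / 2 : ℂ).re = s.re - 1 / 2 := by simp
      rw [e] at h3
      linarith
  rw [← h2]
  exact h1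

/-- scaling -/
theorem sy_scale (h : Sy X) {b : ℝ} (hb : 1 ≤ b) : Sy (fun z => X (z / (b : ℂ))) where
  diff := h.diff.comp (by fun_prop)
  symm := fun z => by
    rw [← h.symm]
    congr 1
    rw [map_div₀, Complex.conj_ofReal]
    ring
  slow := by
    obtain ⟨K, hK, hs⟩ := h.slow
    refine ⟨K, hK, fun z => (hs _).trans (Real.exp_le_exp.2 ?_)⟩
    refine mul_le_mul_of_nonneg_left (Real.rpow_le_rpow (by positivity) ?_ (by norm_num)) hK.le
    rw [norm_div, Complex.norm_real, Real.norm_eq_abs, abs_of_pos (by linarith)]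
    have := div_le_self (norm_nonneg z) hb
    linarith
  ne := by
    obtain ⟨z, hz⟩ := h.ne
    refine ⟨b * z, ?_⟩
    have hbc : (b : ℂ) ≠ 0 := by
      have : (0 : ℝ) < b := by linarith
      exact_mod_cast this.ne'
    rw [mul_div_cancel_left₀ _ hbc]
    exact hz

theorem LL_scale (h : Sy X) {b : ℝ} (hb : 0 < b) (n : ℕ) (t : ℝ) :
    LL (fun z => X (z / (b : ℂ))) n (b * t) = (1 / b) ^ (2 * n) * LL X n t := by
  have hbc : (b : ℂ) ≠ 0 := by exact_mod_cast hb.ne'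
  unfold LL
  rw [← LC_scale (tr_diff h.diff t)]
  congr 1
  funext u
  unfold tr
  congr 1
  push_cast
  field_simp

theorem pl_meas (hκ : 1 / 2 ≤ κ) (h : PL κ X) : ∃ c C : ℝ, 0 < c ∧ 0 < C ∧ ∀ (n : ℕ) (T : ℝ), 0 ≤ T →
    volume {t : ℝ | 0 ≤ t ∧ t ≤ T ∧ ∃ m : ℕ, n ≤ m ∧ LL X m t ≤ 0} ≤
      ENNReal.ofReal (C * Real.exp (-(c * n)) * T) := by
  obtain ⟨H, Z, hG⟩ := h.gy
  obtain ⟨⟨F, hh, hD⟩, -, -⟩ := hd_of κ H X Z hκ hG h.strip h.huge
  obtain ⟨b, hb⟩ : ∃ b : ℝ, b = 2 * κ := ⟨_, rfl⟩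
  have hb1 : 1 ≤ b := by rw [hb]; linarith
  have hb0 : 0 < b := by linarith
  have hbc : (b : ℂ) ≠ 0 := by exact_mod_cast hb0.ne'
  have hsy := h.sy
  have hF : F = fun z => X (z / (b : ℂ)) := by
    rw [← hD.heat0]
    funext z
    show heat (0 / (2 * κ) ^ 2) X (z / ((2 * κ : ℝ) : ℂ)) = X (z / (b : ℂ))
    obtain ⟨K, hK, hslow⟩ := hsy.slow
    obtain ⟨g0, -⟩ := Pool.Agent.Y275.GL.hht X (slow_of hsy.diff hK hslow) hsy.symm hsy.ne h.strip
    rw [zero_div, g0, hb]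
  have hsF : Sy F := by
    rw [hF]
    exact sy_scale hsy hb1
  have hsc : ∀ (n : ℕ) (t : ℝ), LL F n (b * t) = (1 / b) ^ (2 * n) * LL X n t := fun n t => by
    rw [hF]
    exact LL_scale hsy hb0 n t
  have hlow : ∃ K : ℝ, 0 < K ∧ ∃ N : ℕ, ∀ (n : ℕ) (t : ℝ), N ≤ n → |t| ≤ Real.exp (n / K) →
      0 < LL F n t := by
    obtain ⟨K, hK, N0, h1⟩ := pl_low h
    refine ⟨K, hK, N0, fun n t hn ht => ?_⟩
    have e : t = b * (t / b) := by field_simp
    rw [e, hsc]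
    refine mul_pos (by positivity) (h1 n _ hn ?_)
    rw [abs_div, abs_of_pos hb0]
    exact (div_le_self (abs_nonneg t) hb1).trans ht
  obtain ⟨c, C, n0, hc, hC, hw⟩ := window hD hsF hlow
  obtain ⟨C', hC', h2⟩ := Pool.Agent.K3h80.LAG.union_bound (L := LL X) (c := c) (C := C) (n0 := n0) hc hC
    (fun T n hT hn => by
      have h3 := hw (b * T) n (by positivity) hn
      have h4 : volume {t : ℝ | T / 2 ≤ t ∧ t ≤ 3 * T ∧ LL X n t ≤ 0} ≤
          ENNReal.ofReal (1 / b) * volume (Bd F n (b * T)) := by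
        refine vol_scale (by positivity) ?_
        rintro t ⟨k1, k2, k3⟩
        have e : t / (1 / b) = b * t := by field_simp
        rw [e]
        refine ⟨?_, ?_, ?_⟩
        · nlinarith
        · nlinarith
        · rw [hsc]
          exact mul_nonpos_of_nonneg_of_nonpos (by positivity) k3
      refine h4.trans ((mul_le_mul_right h3 _).trans ?_)
      rw [← ENNReal.ofReal_mul (by positivity)]
      apply ENNReal.ofReal_le_ofReal
      have e : 1 / b * (C * (b * T) * Real.exp (-(c * n))) = C * T * Real.exp (-(c * n)) := by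
        field_simp
      rw [e])
  exact ⟨c, C', hc, hC', h2⟩

end

/-! ## In terms of `Λ` -/

/-- the coefficient of `x^(2n)` in `|Λ(a + x + i t)|²` -/
noncomputable def La (Λ : ℂ → ℂ) (a : ℝ) (n : ℕ) (t : ℝ) : ℝ :=
  iteratedDeriv (2 * n) (fun x : ℝ => ‖Λ (((a + x : ℝ) : ℂ) + t * I)‖ ^ 2) 0 / ((2 * n).factorial : ℝ)

theorem LL_La {Λ : ℂ → ℂ} {v : ℂ} {a : ℝ} (h : Differentiable ℂ Λ) (n : ℕ) (t : ℝ) :
    LL (fun z => v * Λ ((a : ℂ) + z)) n t = ‖v‖ ^ 2 * La Λ a n t := by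
  have hd : Differentiable ℂ (tr (fun z => v * Λ ((a : ℂ) + z)) t) :=
    tr_diff ((h.comp (by fun_prop)).const_mul v) t
  unfold LL
  rw [LC_eq hd]
  have e : (fun y : ℝ => ‖tr (fun z => v * Λ ((a : ℂ) + z)) t y‖ ^ 2) =
      fun y : ℝ => ‖v‖ ^ 2 * ‖Λ (((a + y : ℝ) : ℂ) + t * I)‖ ^ 2 := by
    funext y
    unfold tr
    rw [norm_mul, mul_pow]
    congr 4
    push_cast
    ring
  rw [e, iteratedDeriv_const_mul_field]
  unfold La
  ring

theorem final {κ : ℝ} (hκ : 1 / 2 ≤ κ) {Λ : ℂ → ℂ} {v : ℂ} {a : ℝ}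
    (h : PL κ (fun z => v * Λ ((a : ℂ) + z))) (hv : v ≠ 0) (hΛ : Differentiable ℂ Λ) :
    (∀ t x : ℝ, HasSum (fun n : ℕ => La Λ a n t * x ^ (2 * n)) (‖Λ (((a + x : ℝ) : ℂ) + t * I)‖ ^ 2)) ∧
    ((∀ s : ℂ, Λ s = 0 → s.re = a) ↔ ∀ (n : ℕ) (t : ℝ), 0 ≤ La Λ a n t) ∧
    ((∀ s : ℂ, Λ s = 0 → s.re = a) ↔ volume {t : ℝ | ∃ n : ℕ, La Λ a n t < 0} = 0) ∧
    (∀ s : ℂ, Λ s = 0 → s.re ≠ a → ∃ n : ℕ, La Λ a n s.im < 0) ∧
    (∀ (n : ℕ) (t : ℝ), La Λ a n t ≤ 0 → ∃ s : ℂ, Λ s = 0 ∧ |t - s.im| ≤ |s.re - a|) ∧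
    (∃ c C : ℝ, 0 < c ∧ 0 < C ∧ ∀ (n : ℕ) (T : ℝ), 0 ≤ T →
      volume {t : ℝ | 0 ≤ t ∧ t ≤ T ∧ ∃ m : ℕ, n ≤ m ∧ La Λ a m t ≤ 0} ≤
        ENNReal.ofReal (C * Real.exp (-(c * n)) * T)) := by
  have hv2 : 0 < ‖v‖ ^ 2 := by
    have := norm_pos_iff.2 hv
    positivity
  have hL := fun (n : ℕ) (t : ℝ) => LL_La (v := v) (a := a) hΛ n t
  have hneg : ∀ (n : ℕ) (t : ℝ), LL (fun z => v * Λ ((a : ℂ) + z)) n t < 0 ↔ La Λ a n t < 0 := by
    intro n t
    rw [hL]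
    exact ⟨fun h => by
      by_contra h1
      have := mul_nonneg hv2.le (not_lt.1 h1)
      linarith, fun h => mul_neg_of_pos_of_neg hv2 h⟩
  have hnp : ∀ (n : ℕ) (t : ℝ), LL (fun z => v * Λ ((a : ℂ) + z)) n t ≤ 0 ↔ La Λ a n t ≤ 0 := by
    intro n t
    rw [hL]
    exact ⟨fun h => by
      by_contra h1
      have := mul_pos hv2 (not_le.1 h1)
      linarith, fun h => mul_nonpos_of_nonneg_of_nonpos hv2.le h⟩
  have hzero : (∀ s, Λ s = 0 → s.re = a) ↔ (∀ s, v * Λ ((a : ℂ) + s) = 0 → s.re = 0) := by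
    constructor
    · intro h s hs
      have := h _ ((mul_eq_zero.1 hs).resolve_left hv)
      simpa using this
    · intro h s hs
      have e : (a : ℂ) + (s - a) = s := by ring
      have h3 := h (s - a) (by rw [e, hs, mul_zero])
      have h4 : (s - (a : ℂ)).re = s.re - a := by simp
      linarith
  have hcrit := pl_crit h
  refine ⟨fun t x => ?_, ?_, ?_, ?_, ?_, ?_⟩
  · have h1 := hasSum_LL h.sy t x
    have e1 : ‖v * Λ ((a : ℂ) + (I * t + x))‖ ^ 2 = ‖v‖ ^ 2 * ‖Λ (((a + x : ℝ) : ℂ) + t * I)‖ ^ 2 := by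
      rw [norm_mul, mul_pow]
      congr 4
      push_cast
      ring
    rw [e1] at h1
    have h2 := h1.mul_left ((‖v‖ ^ 2)⁻¹)
    rw [inv_mul_cancel_left₀ hv2.ne'] at h2
    refine Pool.Agent.TH803.LU.hcongr h2 fun n => ?_
    rw [hL]
    field_simp
  · rw [hzero, hcrit]
    refine forall_congr' fun n => forall_congr' fun t => ?_
    rw [← not_lt, ← not_lt, hneg]
  · rw [hzero, crit_meas h.sy h.strip hcrit.1]
    simp only [hneg]
  · intro s hs hre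
    have e : (a : ℂ) + (s - a) = s := by ring
    have h4 : (s - (a : ℂ)).re = s.re - a := by simp
    have h5 : (s - (a : ℂ)).im = s.im := by simp
    obtain ⟨n, hn⟩ := below h.sy h.strip (b := s - a) (by rw [e, hs, mul_zero])
      (by rw [h4]; exact sub_ne_zero.2 hre)
    rw [h5, hneg] at hn
    exact ⟨n, hn⟩
  · intro n t hn
    obtain ⟨b, hb, hbt⟩ := pl_cone h ((hnp n t).2 hn)
    refine ⟨(a : ℂ) + b, (mul_eq_zero.1 hb).resolve_left hv, ?_⟩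
    have h4 : ((a : ℂ) + b).re = a + b.re := by simp
    have h5 : ((a : ℂ) + b).im = b.im := by simp
    rw [h4, h5, add_sub_cancel_left]
    exact hbt
  · obtain ⟨c, C, hc, hC, h1⟩ := pl_meas hκ h
    refine ⟨c, C, hc, hC, ?_⟩
    simp only [← hnp]
    exact h1

end Pool.Agent.K3h80.LH
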