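import Pool.Agent.K3h80.LH.Gen
import Pool.Agent.K3h80.LAG.Loc
import Pool.Agent.R838.CR.Hdyp

set_option autoImplicit false

/-!
# The measure of the heights at which a Laguerre inequality of large order fails: dyadic windows
-/

namespace Pool.Agent.K3h80.LH

open Complex MeasureTheory Set Filter Topology
open scoped ComplexConjugate
open Pool.Agent.H24R2.DZ (NN ra)
open Pool.Agent.H24R2.JP (Om)
open Pool.Agent.R838.TW (Sy)
open Pool.Agent.R838.LD (HD hung)
open Pool.Agent.Y671.LD (FarOK)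
open Pool.Agent.TH803.LU (EE EE_diff LC)
open Pool.Agent.K3h80.LAG (coef_pos GG)

/-- positivity at a good point -/
theorem ll_of_nn : ∃ η : ℝ, ∃ n0 : ℕ, 0 < η ∧ 1 ≤ n0 ∧ ∀ (Φ : ℂ → ℂ), Sy Φ → ∀ (n : ℕ) (t r : ℝ),
    n0 ≤ n → 0 < r → NN n η (fun z => Φ (I * t + r * z)) → 0 < LL Φ n t := by
  obtain ⟨η, n0, hη, hn0, h⟩ := coef_pos
  refine ⟨η, n0, hη, hn0, fun Φ hΦ n t r hn hr hNN => ?_⟩
  have h1 := h n _ hn hNN
  have e : GG (fun z => Φ (I * t + r * z)) = fun z => EE (tr Φ t) ((r : ℂ) * z) := by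
    funext z
    rw [EE_eq hΦ]
    show Φ (I * t + r * z) * Φ (I * t + r * -z) = Φ (I * t + r * z) * Φ (I * t - r * z)
    rw [mul_neg, ← sub_eq_add_neg]
  have h2 : iteratedDeriv (2 * n) (GG (fun z => Φ (I * t + r * z))) 0 =
      (r : ℂ) ^ (2 * n) * iteratedDeriv (2 * n) (EE (tr Φ t)) 0 := by
    rw [e]
    have h3 := iteratedDeriv_comp_const_mul (n := 2 * n) (f := EE (tr Φ t))
      ((EE_diff (tr_diff hΦ.diff t)).contDiff) (r : ℂ)
    have h4 := congrFun h3 0
    simpa using h4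
  rw [h2, ← Complex.ofReal_pow, Complex.re_ofReal_mul] at h1
  have h5 : 0 < r ^ (2 * n) := by positivity
  unfold LL LC
  exact div_pos ((mul_pos_iff_of_pos_left h5).1 h1) (by positivity)

/-- the bad points in a dyadic window -/
def Bd (Φ : ℂ → ℂ) (n : ℕ) (T : ℝ) : Set ℝ := {t : ℝ | T / 2 ≤ t ∧ t ≤ 3 * T ∧ LL Φ n t ≤ 0}

section

variable {B : ℝ} {F : ℂ → ℂ} {FT : ℝ → ℂ → ℂ} {h : ℝ → ℝ}

/-- small scales -/
theorem small (hD : HD B F FT h) (hs : Sy F) : ∃ c C T0 : ℝ, ∃ n0 : ℕ, 0 < c ∧ 0 < C ∧ 2 ≤ T0 ∧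
    ∀ (T : ℝ) (n : ℕ), T0 ≤ T → n0 ≤ n →
    (n : ℝ) ≤ Real.log T / 200 → volume (Bd F n T) ≤ ENNReal.ofReal (C * T * Real.exp (-(c * n))) := by
  obtain ⟨η, n0, hη, hn0, hpos⟩ := ll_of_nn
  obtain ⟨c, C, a0, T0, hc, hC, ha0, hT0, h1⟩ := hD.good η hη
  refine ⟨c, C, T0, max n0 ⌈a0⌉₊, hc, hC, hT0, ?_⟩
  intro T n hT hn hnT
  have hn0' : n0 ≤ n := (le_max_left _ _).trans hn
  have ha0' : a0 ≤ n := Nat.ceil_le.1 ((le_max_right _ _).trans hn)
  have hlog : 0 < Real.log T := Real.log_pos (by linarith)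
  refine (measure_mono ?_).trans (h1 T n hT ha0' hnT)
  rintro t ⟨ht1, ht2, ht3⟩
  refine ⟨ht1, ht2, fun hgd => ?_⟩
  have hn1 : (0 : ℝ) < n := by linarith
  have h4 := hpos F hs n t (ra T n) hn0' (by unfold ra; positivity) hgd
  linarith

/-- scales of order `log T` -/
theorem large (hD : HD B F FT h) (hs : Sy F) {X : ℝ} (hX : 1 ≤ X) : ∃ c C T0 : ℝ, ∃ n0 : ℕ,
    0 < c ∧ 0 < C ∧ 2 ≤ T0 ∧ ∀ (T : ℝ) (n : ℕ), T0 ≤ T → n0 ≤ n →
    Real.log T / 200 ≤ n → (n : ℝ) ≤ X * Real.log T →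
    volume (Bd F n T) ≤ ENNReal.ofReal (C * T * Real.exp (-(c * n))) := by
  obtain ⟨η, n0, hη, hn0, hpos⟩ := ll_of_nn
  obtain ⟨R, η2, T1, hR, hη2, hT1, h1⟩ := hung B F FT h hD (1 / 100) (1 / 200) (4 * X) (by norm_num)
    (by norm_num) (by norm_num) (by linarith) η hη
  obtain ⟨c, C, T2, hc, hC, hT2, h2⟩ := hD.top R (1 / 100 * min (1 / 200) 1 / 10) η2 hR
    (by norm_num) hη2
  refine ⟨c / X, C, max (max 8 (2 * T1)) T2, n0, by positivity, hC, ?_, ?_⟩
  · exact (show (2 : ℝ) ≤ 8 by norm_num).trans ((le_max_left _ _).trans (le_max_left _ _))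
  intro T n hT hn hn1 hn2
  have hT8 : 8 ≤ T := ((le_max_left _ _).trans (le_max_left _ _)).trans hT
  have hTT1 : 2 * T1 ≤ T := ((le_max_right _ _).trans (le_max_left _ _)).trans hT
  have hTT2 : T2 ≤ T := (le_max_right _ _).trans hT
  have hT0 : 0 < T := by linarith
  have hlog : 0 < Real.log T := Real.log_pos (by linarith)
  have h3 : volume (Bd F n T) ≤ ENNReal.ofReal (C * T ^ (1 - c)) := by
    refine (measure_mono ?_).trans (h2 T hTT2)
    rintro t ⟨ht1, ht2, ht3⟩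
    refine ⟨ht1, ht2, fun hfar => ?_⟩
    have htp : 0 < t := by linarith
    have ht4 : 4 ≤ t := by linarith
    have hlt : 0 < Real.log t := Real.log_pos (by linarith)
    have hOm : Om t = Real.log t / 2 := rfl
    have hl1 : Real.log t ≤ 2 * Real.log T := by
      have h4 : Real.log t ≤ Real.log (T ^ 2) := Real.log_le_log htp (by nlinarith)
      rwa [Real.log_pow] at h4
    have hl2 : Real.log T ≤ 2 * Real.log t := by
      have h4 : Real.log T ≤ Real.log (t ^ 2) := Real.log_le_log hT0 (by nlinarith)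
      rwa [Real.log_pow] at h4
    have hOm0 : 0 < Om t := by rw [hOm]; linarith
    have hnp : (0 : ℝ) < n := by linarith
    have hr : 0 < (n : ℝ) / Om t := by positivity
    have h5 := h1 t (n / Om t) (2 * (n / Om t) ^ 2) (by linarith)
      (by rw [le_div_iff₀ hOm0, hOm]; linarith) (by
        rw [div_le_iff₀ hOm0, hOm]
        nlinarith) le_rfl hfar
    have h6 : (n : ℝ) / Om t * Om t = n := div_mul_cancel₀ _ hOm0.ne'
    rw [h6] at h5
    have h7 : NN n η (fun z => F (I * t + ((n / Om t : ℝ) : ℂ) * z)) := by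
      refine ⟨h5.diff, h5.symm, fun z hz1 hz2 => ?_, fun z hz1 hz2 => ?_⟩
      · exact h5.far z (by norm_num at hz1 ⊢; exact hz1) hz2
      · refine (h5.near z (by norm_num at hz1 ⊢; exact hz1) hz2).trans ?_
        refine mul_le_mul_of_nonneg_left (Real.exp_le_exp.2 ?_) (norm_nonneg _)
        nlinarith
    have h8 := hpos F hs n t _ hn hr h7
    linarith
  refine h3.trans (ENNReal.ofReal_le_ofReal ?_)
  have h4 : T ^ (1 - c) = T * Real.exp (-(c * Real.log T)) := by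
    rw [sub_eq_add_neg, Real.rpow_add hT0, Real.rpow_one, Real.rpow_def_of_pos hT0]
    congr 2
    ring
  rw [h4, mul_assoc C T]
  refine mul_le_mul_of_nonneg_left (mul_le_mul_of_nonneg_left (Real.exp_le_exp.2 ?_) hT0.le) hC.le
  rw [neg_le_neg_iff, div_mul_eq_mul_div, div_le_iff₀ (by linarith)]
  nlinarith

/-- all windows, all large orders -/
theorem window (hD : HD B F FT h) (hs : Sy F)
    (hlow : ∃ K : ℝ, 0 < K ∧ ∃ N : ℕ, ∀ (n : ℕ) (t : ℝ), N ≤ n → |t| ≤ Real.exp (n / K) → 0 < LL F n t) :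
    ∃ c C : ℝ, ∃ n0 : ℕ, 0 < c ∧ 0 < C ∧ ∀ (T : ℝ) (n : ℕ), 0 < T → n0 ≤ n →
    volume (Bd F n T) ≤ ENNReal.ofReal (C * T * Real.exp (-(c * n))) := by
  obtain ⟨K, hK, N, hN⟩ := hlow
  obtain ⟨c1, C1, T1, n1, hc1, hC1, hT1, h1⟩ := small hD hs
  obtain ⟨X, hX⟩ : ∃ X : ℝ, X = max 1 (2 * K) := ⟨_, rfl⟩
  have hX1 : 1 ≤ X := by rw [hX]; exact le_max_left _ _
  have hX2 : 2 * K ≤ X := by rw [hX]; exact le_max_right _ _
  obtain ⟨c2, C2, T2, n2, hc2, hC2, hT2, h2⟩ := large hD hs hX1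
  have hemp : ∀ (T : ℝ) (n : ℕ), 0 < T → N ≤ n → 3 * T ≤ Real.exp (n / K) → volume (Bd F n T) = 0 := by
    intro T n hT hn h3
    have : Bd F n T = ∅ := by
      rw [Set.eq_empty_iff_forall_notMem]
      rintro t ⟨ht1, ht2, ht3⟩
      have h4 := hN n t hn (by rw [abs_of_nonneg (by linarith)]; linarith)
      linarith
    rw [this]
    exact measure_empty
  obtain ⟨T3, hT3⟩ : ∃ T3 : ℝ, T3 = max (max T1 T2) 3 := ⟨_, rfl⟩
  have hT31 : T1 ≤ T3 := by rw [hT3]; exact (le_max_left _ _).trans (le_max_left _ _)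
  have hT32 : T2 ≤ T3 := by rw [hT3]; exact (le_max_right _ _).trans (le_max_left _ _)
  have hT33 : 3 ≤ T3 := by rw [hT3]; exact le_max_right _ _
  obtain ⟨n3, hn3⟩ := exists_nat_ge (K * Real.log (3 * T3))
  refine ⟨min c1 c2, C1 + C2, max (max n1 n2) (max N n3), lt_min hc1 hc2, by linarith, ?_⟩
  intro T n hT hn
  have hnn1 : n1 ≤ n := ((le_max_left _ _).trans (le_max_left _ _)).trans hn
  have hnn2 : n2 ≤ n := ((le_max_right _ _).trans (le_max_left _ _)).trans hn
  have hnN : N ≤ n := ((le_max_left _ _).trans (le_max_right _ _)).trans hn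
  have hnn3 : n3 ≤ n := ((le_max_right _ _).trans (le_max_right _ _)).trans hn
  have hnn : (0 : ℝ) ≤ n := Nat.cast_nonneg n
  rcases lt_or_ge T T3 with h | h
  · rw [hemp T n hT hnN]
    · exact bot_le
    · have h3 : (n3 : ℝ) ≤ n := by exact_mod_cast hnn3
      have h4 : Real.log (3 * T3) ≤ n / K := by
        rw [le_div_iff₀ hK]
        linarith
      have h5 := Real.exp_le_exp.2 h4
      rw [Real.exp_log (by linarith)] at h5
      linarith
  · have hT3' : 3 ≤ T := hT33.trans h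
    rcases le_or_gt (n : ℝ) (Real.log T / 200) with h3 | h3
    · refine (h1 T n (hT31.trans h) hnn1 h3).trans (ENNReal.ofReal_le_ofReal ?_)
      gcongr
      · linarith
      · exact min_le_left _ _
    · rcases le_or_gt (n : ℝ) (X * Real.log T) with h4 | h4
      · refine (h2 T n (hT32.trans h) hnn2 h3.le h4).trans (ENNReal.ofReal_le_ofReal ?_)
        gcongr
        · linarith
        · exact min_le_right _ _
      · rw [hemp T n hT hnN]
        · exact bot_le
        · have hl0 : 0 ≤ Real.log T := Real.log_nonneg (by linarith)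
          have h5 : Real.log (3 * T) ≤ n / K := by
            rw [le_div_iff₀ hK]
            have h6 : Real.log (3 * T) ≤ 2 * Real.log T := by
              rw [Real.log_mul (by norm_num) hT.ne', two_mul]
              have := Real.log_le_log (by norm_num) hT3'
              linarith
            nlinarith
          have h6 := Real.exp_le_exp.2 h5
          rwa [Real.exp_log (by linarith)] at h6

end

end Pool.Agent.K3h80.LH
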