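import Pool.Agent.R838.TW.Gro
import Pool.Agent.TH803.LU.RHn
import Pool.Agent.TH803.LG.Chain
import Pool.Agent.H24R2.JP.Had

set_option autoImplicit false

/-!
# Taylor coefficients of `x ↦ |Φ(i t + x)|²` for symmetric entire functions with zeros in a strip

Variant of parts of the starting modules `Pool.Agent.TH803.LG` (Riemann xi function) for a general
symmetric entire function `Φ` of order at most `3/2`.
-/

namespace Pool.Agent.K3h80.LH

open Complex MeasureTheory Set Filter Topology Polynomial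
open scoped ComplexConjugate
open Pool.Agent.TH803.LU (EE LC FE0 EE_diff EE_neg EE_conj EE_real EE_norm hasSum_LC sqf sqf_sq sqf_diff
  sqf_conj sqf_iter hasSum_sqf exists_sq LC_eq LC_nonneg_iff iter_conj ne_zero_of_nonneg)
open Pool.Agent.H24R2.JP (Par App)
open Pool.Agent.R838.TW (Sy)
open Pool.Agent.TH803.LG (chain)

/-- the function near the point at height `t` of the line -/
noncomputable def tr (Φ : ℂ → ℂ) (t : ℝ) (u : ℂ) : ℂ := Φ (I * t + u)

/-- the coefficient of `x^(2n)` in `|Φ(i t + x)|²` -/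
noncomputable def LL (Φ : ℂ → ℂ) (n : ℕ) (t : ℝ) : ℝ := LC (tr Φ t) n

theorem tr_diff {Φ : ℂ → ℂ} (h : Differentiable ℂ Φ) (t : ℝ) : Differentiable ℂ (tr Φ t) :=
  h.comp (by fun_prop : Differentiable ℂ fun u : ℂ => I * t + u)

theorem tr_fe {Φ : ℂ → ℂ} (hs : ∀ z : ℂ, Φ (-(conj z)) = conj (Φ z)) (t : ℝ) : FE0 (tr Φ t) := by
  refine ⟨1, by simp, fun u => ?_⟩
  unfold tr
  rw [one_mul, ← hs]
  congr 1
  simp only [map_add, map_mul, map_neg, Complex.conj_conj, Complex.conj_ofReal, Complex.conj_I]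
  ring

section

variable {Φ : ℂ → ℂ}

theorem hasSum_LL (h : Sy Φ) (t y : ℝ) :
    HasSum (fun n : ℕ => LL Φ n t * y ^ (2 * n)) (‖Φ (I * t + y)‖ ^ 2) :=
  hasSum_LC (tr_diff h.diff t) (tr_fe h.symm t) y

/-- `FF Φ t (z ^ 2) = Φ (i t + z) conj Φ (i t + conj z)` -/
noncomputable def FF (Φ : ℂ → ℂ) (t : ℝ) : ℂ → ℂ := sqf (EE (tr Φ t))

theorem FF_sq (h : Sy Φ) (t : ℝ) (z : ℂ) : FF Φ t (z ^ 2) = EE (tr Φ t) z :=
  sqf_sq (EE_diff (tr_diff h.diff t)) (EE_neg (tr_fe h.symm t)) z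

theorem FF_diff (h : Sy Φ) (t : ℝ) : Differentiable ℂ (FF Φ t) :=
  sqf_diff (EE_diff (tr_diff h.diff t)) (EE_neg (tr_fe h.symm t))

theorem FF_conj (h : Sy Φ) (t : ℝ) (x : ℂ) : FF Φ t (conj x) = conj (FF Φ t x) :=
  sqf_conj (EE_diff (tr_diff h.diff t)) (EE_neg (tr_fe h.symm t)) (EE_conj _) x

theorem EE_iter_real (h : Sy Φ) (t : ℝ) (k : ℕ) :
    iteratedDeriv k (EE (tr Φ t)) 0 = (((iteratedDeriv k (EE (tr Φ t)) 0).re : ℝ) : ℂ) := by
  have h1 := iter_conj (EE_diff (tr_diff h.diff t)) (EE_conj (tr Φ t)) k 0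
  rw [map_zero] at h1
  exact (Complex.conj_eq_iff_re.1 h1.symm).symm

theorem FF_iter (h : Sy Φ) (t : ℝ) (n : ℕ) :
    iteratedDeriv n (FF Φ t) 0 = (((n.factorial : ℝ) * LL Φ n t : ℝ) : ℂ) := by
  unfold FF
  rw [sqf_iter (EE_diff (tr_diff h.diff t)) (EE_neg (tr_fe h.symm t)), EE_iter_real h]
  unfold LL LC
  push_cast
  rfl

theorem hasSum_FF (h : Sy Φ) (t : ℝ) (x : ℂ) :
    HasSum (fun k : ℕ => ((LL Φ k t : ℝ) : ℂ) * x ^ k) (FF Φ t x) := by
  have h1 := hasSum_sqf (EE_diff (tr_diff h.diff t)) (EE_neg (tr_fe h.symm t)) x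
  refine Pool.Agent.TH803.LU.hcongr h1 fun k => ?_
  rw [EE_iter_real h]
  unfold LL LC
  push_cast
  rfl

theorem par_sq (w : ℂ) : w ^ 2 ∈ Par ↔ |w.re| ≤ 1 / 2 := by
  have e : w ^ 2 ∈ Par ↔ (w ^ 2).re + (w ^ 2).im ^ 2 ≤ 1 / 4 := Iff.rfl
  rw [e, sq w, Complex.mul_re, Complex.mul_im]
  constructor
  · intro h
    apply abs_le_of_sq_le_sq _ (by norm_num)
    nlinarith [sq_nonneg w.im, sq_nonneg w.re]
  · intro h
    have h1 : w.re ^ 2 ≤ 1 / 4 := by
      rw [← sq_abs]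
      nlinarith [abs_nonneg w.re]
    nlinarith [mul_nonneg (sub_nonneg.2 h1) (sq_nonneg w.im)]

/-- a zero of `FF` gives a zero of `Φ` -/
theorem FF_zero (h : Sy Φ) {t : ℝ} {z : ℂ} (h0 : FF Φ t (z ^ 2) = 0) :
    ∃ b : ℂ, Φ b = 0 ∧ b.re = z.re ∧ |t - b.im| = |z.im| := by
  rw [FF_sq h] at h0
  unfold EE tr at h0
  rcases mul_eq_zero.1 h0 with h1 | h1
  · refine ⟨_, h1, by simp, ?_⟩
    have e : (I * (t : ℂ) + z).im = t + z.im := by simp
    rw [e, show t - (t + z.im) = -z.im by ring, abs_neg]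
  · have h2 : Φ (I * (t : ℂ) + conj z) = 0 := by
      have := congrArg conj h1
      simpa using this
    refine ⟨_, h2, by simp, ?_⟩
    have e : (I * (t : ℂ) + conj z).im = t - z.im := by simp; ring
    rw [e, show t - (t - z.im) = z.im by ring]

theorem FF_par (h : Sy Φ) (hst : ∀ s : ℂ, Φ s = 0 → |s.re| ≤ 1 / 2) {t : ℝ} {x : ℂ}
    (h0 : FF Φ t x = 0) : x ∈ Par := by
  obtain ⟨z, rfl⟩ := exists_sq x
  obtain ⟨b, hb, hre, -⟩ := FF_zero h h0
  rw [par_sq, ← hre]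
  exact hst b hb

theorem FF_one_ne (h : Sy Φ) (hst : ∀ s : ℂ, Φ s = 0 → |s.re| ≤ 1 / 2) (t : ℝ) : FF Φ t 1 ≠ 0 := by
  intro h0
  have h1 : (1 : ℂ) ∈ Par := FF_par h hst h0
  have h2 : (1 : ℂ).re + (1 : ℂ).im ^ 2 ≤ 1 / 4 := h1
  norm_num at h2

theorem FF_growth (h : Sy Φ) (t : ℝ) : ∃ K : ℝ, 0 ≤ K ∧ ∀ x : ℂ,
    ‖FF Φ t x‖ ≤ Real.exp (K * (1 + ‖x‖) ^ (3 / 4 : ℝ)) := by
  obtain ⟨K, hK, hb⟩ := h.slow
  refine ⟨4 * K * (1 + |t|) ^ (3 / 2 : ℝ), by positivity, fun x => ?_⟩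
  obtain ⟨z, rfl⟩ := exists_sq x
  rw [FF_sq h, EE_norm]
  have key : ∀ w : ℂ, ‖w‖ = ‖z‖ → ‖tr Φ t w‖ ≤
      Real.exp (2 * K * (1 + |t|) ^ (3 / 2 : ℝ) * (1 + ‖z ^ 2‖) ^ (3 / 4 : ℝ)) := by
    intro w hw
    unfold tr
    refine (hb _).trans (Real.exp_le_exp.2 ?_)
    have h1 : 1 + ‖I * (t : ℂ) + w‖ ≤ (1 + |t|) * (1 + ‖z‖) := by
      have h2 : ‖I * (t : ℂ) + w‖ ≤ |t| + ‖z‖ := by
        refine (norm_add_le _ _).trans (le_of_eq ?_)
        rw [norm_mul, Complex.norm_I, Complex.norm_real, Real.norm_eq_abs, one_mul, hw]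
      have h3 : 0 ≤ |t| * ‖z‖ := by positivity
      nlinarith
    have h4 : (1 + ‖z‖) ^ (3 / 2 : ℝ) ≤ 2 * (1 + ‖z ^ 2‖) ^ (3 / 4 : ℝ) := by
      have h5 : (1 + ‖z‖) ^ 2 ≤ 2 * (1 + ‖z ^ 2‖) := by
        rw [norm_pow]
        nlinarith [sq_nonneg (1 - ‖z‖)]
      have h6 : (1 + ‖z‖) ^ (3 / 2 : ℝ) = ((1 + ‖z‖) ^ 2) ^ (3 / 4 : ℝ) := by
        rw [← Real.rpow_natCast, ← Real.rpow_mul (by positivity)]
        norm_num
      rw [h6]
      calc ((1 + ‖z‖) ^ 2) ^ (3 / 4 : ℝ) ≤ (2 * (1 + ‖z ^ 2‖)) ^ (3 / 4 : ℝ) :=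
            Real.rpow_le_rpow (by positivity) h5 (by norm_num)
        _ = 2 ^ (3 / 4 : ℝ) * (1 + ‖z ^ 2‖) ^ (3 / 4 : ℝ) := Real.mul_rpow (by norm_num) (by positivity)
        _ ≤ 2 * (1 + ‖z ^ 2‖) ^ (3 / 4 : ℝ) := by
            refine mul_le_mul_of_nonneg_right ?_ (by positivity)
            calc (2 : ℝ) ^ (3 / 4 : ℝ) ≤ 2 ^ (1 : ℝ) :=
                  Real.rpow_le_rpow_of_exponent_le (by norm_num) (by norm_num)
              _ = 2 := Real.rpow_one 2
    calc K * (1 + ‖I * (t : ℂ) + w‖) ^ (3 / 2 : ℝ) ≤ K * ((1 + |t|) * (1 + ‖z‖)) ^ (3 / 2 : ℝ) := by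
          gcongr
      _ = K * ((1 + |t|) ^ (3 / 2 : ℝ) * (1 + ‖z‖) ^ (3 / 2 : ℝ)) := by
          rw [Real.mul_rpow (by positivity) (by positivity)]
      _ ≤ K * ((1 + |t|) ^ (3 / 2 : ℝ) * (2 * (1 + ‖z ^ 2‖) ^ (3 / 4 : ℝ))) := by gcongr
      _ = _ := by ring
  have h1 := key z rfl
  have h2 := key (conj z) (Complex.norm_conj z)
  calc ‖tr Φ t z‖ * ‖tr Φ t (conj z)‖ ≤
        Real.exp (2 * K * (1 + |t|) ^ (3 / 2 : ℝ) * (1 + ‖z ^ 2‖) ^ (3 / 4 : ℝ)) *
        Real.exp (2 * K * (1 + |t|) ^ (3 / 2 : ℝ) * (1 + ‖z ^ 2‖) ^ (3 / 4 : ℝ)) :=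
        mul_le_mul h1 h2 (norm_nonneg _) (Real.exp_pos _).le
    _ = _ := by
        rw [← Real.exp_add]
        ring_nf

theorem FF_app (h : Sy Φ) (hst : ∀ s : ℂ, Φ s = 0 → |s.re| ≤ 1 / 2) (t : ℝ) :
    ∃ P : ℕ → ℝ[X], App (FF Φ t) P := by
  obtain ⟨K, hK0, hK⟩ := FF_growth h t
  obtain ⟨P, hP1, hP2⟩ := Pool.Agent.H24R2.JP.had (fun x => FF Φ t (x + 1)) (K * 2)
    ((FF_diff h t).comp (differentiable_id.add_const 1))
    (by simpa using FF_one_ne h hst t)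
    (fun x => by
      have e : (starRingEnd ℂ) x + 1 = (starRingEnd ℂ) (x + 1) := by simp
      show FF Φ t ((starRingEnd ℂ) x + 1) = _
      rw [e, FF_conj h])
    (fun x => by
      refine (hK (x + 1)).trans (Real.exp_le_exp.2 ?_)
      rw [mul_assoc K 2]
      refine mul_le_mul_of_nonneg_left ?_ hK0
      have h1 : 1 + ‖x + 1‖ ≤ 2 * (1 + ‖x‖) := by
        have := norm_add_le x 1
        rw [norm_one] at this
        linarith [norm_nonneg x]
      calc (1 + ‖x + 1‖) ^ (3 / 4 : ℝ) ≤ (2 * (1 + ‖x‖)) ^ (3 / 4 : ℝ) :=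
            Real.rpow_le_rpow (by positivity) h1 (by norm_num)
        _ = 2 ^ (3 / 4 : ℝ) * (1 + ‖x‖) ^ (3 / 4 : ℝ) := Real.mul_rpow (by norm_num) (by positivity)
        _ ≤ 2 * (1 + ‖x‖) ^ (3 / 4 : ℝ) := by
            refine mul_le_mul_of_nonneg_right ?_ (by positivity)
            calc (2 : ℝ) ^ (3 / 4 : ℝ) ≤ 2 ^ (1 : ℝ) :=
                  Real.rpow_le_rpow_of_exponent_le (by norm_num) (by norm_num)
              _ = 2 := Real.rpow_one 2)
  refine ⟨fun N => (P N).comp (X - C 1), fun N x hx => ?_, ?_⟩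
  · rw [aeval_comp] at hx
    have h1 := hP1 N _ hx
    have h2 : aeval x (X - C (1 : ℝ)) + 1 = x := by simp
    rw [h2] at h1
    exact FF_par h hst h1
  · have h1 := hP2.comp (fun x : ℂ => x - 1) (by fun_prop)
    have e1 : ((fun x => FF Φ t (x + 1)) ∘ fun x : ℂ => x - 1) = FF Φ t := by
      funext x
      simp
    rw [e1] at h1
    refine h1.congr (fun N x => ?_)
    simp [aeval_comp]

/-- a failure of one Laguerre inequality at `t` forces a zero in the cone above or below `t` -/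
theorem cone (h : Sy Φ) (hst : ∀ s : ℂ, Φ s = 0 → |s.re| ≤ 1 / 2) {t : ℝ}
    (hlarge : ∃ N : ℕ, ∀ n : ℕ, N ≤ n → 0 < LL Φ n t) {n : ℕ} (hn : LL Φ n t ≤ 0) :
    ∃ b : ℂ, Φ b = 0 ∧ |t - b.im| ≤ |b.re| := by
  by_contra hcon
  push Not at hcon
  obtain ⟨N, hN⟩ := hlarge
  have hz : ∀ x ∈ Par, 0 ≤ x.re → iteratedDeriv 0 (FF Φ t) x ≠ 0 := by
    intro x _ hx0 h0
    rw [iteratedDeriv_zero] at h0
    obtain ⟨z, rfl⟩ := exists_sq x
    obtain ⟨b, hb, hre, him⟩ := FF_zero h h0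
    have h1 := hcon b hb
    rw [him, hre] at h1
    rw [sq, Complex.mul_re] at hx0
    have h2 : |z.im| ≤ |z.re| := by
      rw [← sq_le_sq]
      nlinarith
    linarith
  have hnt : ∀ m, ∃ x, iteratedDeriv m (FF Φ t) x ≠ 0 := by
    intro m
    by_contra hc
    push Not at hc
    have h1 : iteratedDeriv m (FF Φ t) = fun _ => 0 := funext hc
    have h2 : iteratedDeriv (N + m) (FF Φ t) 0 = 0 := by
      rw [iteratedDeriv_eq_iterate, Function.iterate_add_apply, ← iteratedDeriv_eq_iterate,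
        ← iteratedDeriv_eq_iterate, h1]
      simp
    rw [FF_iter h] at h2
    have h3 := hN (N + m) (by omega)
    have h4 : (0 : ℝ) < ((N + m).factorial : ℝ) := by exact_mod_cast (N + m).factorial_pos
    have h5 : ((N + m).factorial : ℝ) * LL Φ (N + m) t = 0 := by exact_mod_cast h2
    have := mul_pos h4 h3
    linarith
  obtain ⟨P, hP⟩ := FF_app h hst t
  have hch := chain (FF_diff h t) hP 0 hz hnt
  have hne : ∀ m, LL Φ m t ≠ 0 := by
    intro m h0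
    have h1 := (hch m (Nat.zero_le m)).1
    rw [FF_iter h, h0] at h1
    simp at h1
  have hrat : ∀ m, 0 < LL Φ (m + 1) t / LL Φ m t := by
    intro m
    have h1 := (hch m (Nat.zero_le m)).2
    rw [FF_iter h, FF_iter h, ← Complex.ofReal_div, Complex.ofReal_re] at h1
    have f1 : (0 : ℝ) < (m.factorial : ℝ) := by exact_mod_cast m.factorial_pos
    have f2 : (0 : ℝ) < ((m + 1).factorial : ℝ) := by exact_mod_cast (m + 1).factorial_pos
    have h2 : ((m + 1).factorial : ℝ) * LL Φ (m + 1) t / ((m.factorial : ℝ) * LL Φ m t) =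
        ((m + 1).factorial / (m.factorial : ℝ)) * (LL Φ (m + 1) t / LL Φ m t) := by
      have := hne m
      field_simp
    rw [h2] at h1
    have h3 : 0 < ((m + 1).factorial : ℝ) / (m.factorial : ℝ) := div_pos f2 f1
    have h4 : 0 ≤ LL Φ (m + 1) t / LL Φ m t := by
      by_contra hcon
      push Not at hcon
      have := mul_neg_of_pos_of_neg h3 hcon
      linarith
    exact lt_of_le_of_ne h4 (Ne.symm (div_ne_zero (hne _) (hne _)))
  -- all coefficients have the sign of the large ones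
  have hdown : ∀ k : ℕ, ∀ m : ℕ, 0 < LL Φ (m + k) t → 0 < LL Φ m t := by
    intro k
    induction k with
    | zero => intro m hm; exact hm
    | succ k ih =>
      intro m hm
      apply ih
      have h1 := hrat (m + k)
      have h2 : 0 < LL Φ (m + k + 1) t := hm
      by_contra h3
      have h4 := div_nonpos_of_nonneg_of_nonpos h2.le (not_lt.1 h3)
      linarith
  have := hdown N n (hN (n + N) (by omega))
  linarith

/-- some Laguerre inequality fails below a zero off the line -/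
theorem below (h : Sy Φ) (hst : ∀ s : ℂ, Φ s = 0 → |s.re| ≤ 1 / 2) {b : ℂ} (hb : Φ b = 0)
    (h0 : b.re ≠ 0) : ∃ n : ℕ, LL Φ n b.im < 0 := by
  by_contra hcon
  push Not at hcon
  have h1 : tr Φ b.im (b.re : ℝ) = 0 := by
    unfold tr
    have e : I * (b.im : ℂ) + (b.re : ℂ) = b := by
      apply Complex.ext <;> simp
    rw [e, hb]
  have h2 := ne_zero_of_nonneg (tr_diff h.diff b.im) (tr_fe h.symm b.im) (fun n => hcon n) h0 h1 1
  have h3 := hst _ h2
  simp at h3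
  norm_num at h3

theorem EE_eq (h : Sy Φ) (t : ℝ) : EE (tr Φ t) = fun y => Φ (I * t + y) * Φ (I * t - y) := by
  funext y
  unfold EE tr
  rw [← h.symm]
  congr 2
  simp only [map_add, map_mul, Complex.conj_conj, Complex.conj_ofReal, Complex.conj_I]
  ring

theorem EE_iter (h : Sy Φ) (t : ℝ) (m : ℕ) : iteratedDeriv m (EE (tr Φ t)) 0 =
    ∑ i ∈ Finset.range (m + 1), (m.choose i : ℂ) * iteratedDeriv i Φ (I * t) *
      ((-1) ^ (m - i) * iteratedDeriv (m - i) Φ (I * t)) := by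
  have h1 : ContDiff ℂ m (fun y : ℂ => Φ (I * t + y)) :=
    (h.diff.comp ((differentiable_const _).add differentiable_id)).contDiff
  have h2 : ContDiff ℂ m (fun y : ℂ => Φ (I * t - y)) :=
    (h.diff.comp ((differentiable_const _).sub differentiable_id)).contDiff
  have e : EE (tr Φ t) = (fun y : ℂ => Φ (I * t + y)) * fun y : ℂ => Φ (I * t - y) := EE_eq h t
  rw [e, iteratedDeriv_mul h1.contDiffAt h2.contDiffAt]
  refine Finset.sum_congr rfl fun i _ => ?_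
  rw [iteratedDeriv_comp_const_add, iteratedDeriv_comp_const_sub]
  simp

theorem LL_cont (h : Sy Φ) (n : ℕ) : Continuous (LL Φ n) := by
  have e : LL Φ n = fun t => (iteratedDeriv (2 * n) (EE (tr Φ t)) 0).re / ((2 * n).factorial : ℝ) := rfl
  rw [e]
  refine Continuous.div_const ?_ _
  refine Complex.continuous_re.comp ?_
  simp_rw [EE_iter h]
  refine continuous_finsetSum _ fun i _ => ?_
  have hc : ∀ j : ℕ, Continuous fun t : ℝ => iteratedDeriv j Φ (I * t) := by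
    intro j
    have h1 : Continuous (iteratedDeriv j Φ) :=
      (h.diff.contDiff (n := (j : ℕ∞))).continuous_iteratedDeriv j le_rfl
    exact h1.comp (by fun_prop)
  exact (continuous_const.mul (hc _)).mul (continuous_const.mul (hc _))

/-- the criterion in terms of the measure of the bad set -/
theorem crit_meas (h : Sy Φ) (hst : ∀ s : ℂ, Φ s = 0 → |s.re| ≤ 1 / 2)
    (h0 : (∀ s : ℂ, Φ s = 0 → s.re = 0) → ∀ (n : ℕ) (t : ℝ), 0 ≤ LL Φ n t) :
    (∀ s : ℂ, Φ s = 0 → s.re = 0) ↔ volume {t : ℝ | ∃ n : ℕ, LL Φ n t < 0} = 0 := by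
  constructor
  · intro hR
    have : {t : ℝ | ∃ n : ℕ, LL Φ n t < 0} = ∅ := by
      rw [Set.eq_empty_iff_forall_notMem]
      rintro t ⟨n, hn⟩
      have := h0 hR n t
      linarith
    rw [this, measure_empty]
  · intro hm s hs
    by_contra hne
    obtain ⟨n, hn⟩ := below h hst hs hne
    have hopen : IsOpen {s : ℝ | LL Φ n s < 0} := isOpen_lt (LL_cont h n) continuous_const
    have hpos : 0 < volume {s : ℝ | LL Φ n s < 0} := hopen.measure_pos volume ⟨s.im, hn⟩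
    have hle : volume {s : ℝ | LL Φ n s < 0} ≤ volume {t : ℝ | ∃ n : ℕ, LL Φ n t < 0} :=
      measure_mono fun s hs => ⟨n, hs⟩
    rw [hm] at hle
    exact absurd hpos (not_lt.2 hle)

end

end Pool.Agent.K3h80.LH
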